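import Pool.Agent.Helper27.REC.StmtsT

/-! # Row FRK: ranks of the endomorphism rings, if endomorphisms can be lifted   [helper29] -/

set_option autoImplicit false

open scoped Classical
open NumberField Polynomial

namespace REC

namespace H29F

theorem scale {K : Type} [Field K] (A : ValuationSubring K) {d : ℕ} (a : Fin d → K)
    (h : ∃ j, a j ≠ 0) : ∃ (j₀ : Fin d) (c : Fin d → A), a j₀ ≠ 0 ∧ c j₀ = 1 ∧
      ∀ j, ((c j : A) : K) = (a j₀)⁻¹ * a j := by
  obtain ⟨j₁, hj₁⟩ := h
  obtain ⟨j₀, -, hj₀⟩ := Finset.exists_max_image Finset.univ (fun j => A.valuation (a j))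
    ⟨j₁, Finset.mem_univ _⟩
  have h0 : a j₀ ≠ 0 := by
    intro h0
    have h1 := hj₀ j₁ (Finset.mem_univ _)
    rw [h0, map_zero] at h1
    have h2 : A.valuation (a j₁) = 0 := le_antisymm h1 zero_le
    exact hj₁ ((map_eq_zero _).1 h2)
  have hm : ∀ j, (a j₀)⁻¹ * a j ∈ A := by
    intro j
    rw [← A.valuation_le_one_iff, map_mul, map_inv₀]
    have h1 := hj₀ j (Finset.mem_univ _)
    have h2 : A.valuation (a j₀) ≠ 0 := (_root_.map_ne_zero _).2 h0
    rw [mul_comm, ← div_eq_mul_inv]
    exact (div_le_one₀ (zero_lt_iff.2 h2)).2 h1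
  refine ⟨j₀, fun j => ⟨_, hm j⟩, h0, ?_, fun j => rfl⟩
  apply Subtype.ext
  show (a j₀)⁻¹ * a j₀ = 1
  exact inv_mul_cancel₀ h0

end H29F

open H29F

theorem FRK : ST_FRK := by
  intro G K _ _ A n r hl
  set H := Hmk (mapr (IsLocalRing.residue A) r) (mapr (IsLocalRing.residue A) r) with hH
  set H' := Hmk (mapr A.subtype r) (mapr A.subtype r) with hH'
  let b := Module.finBasis (IsLocalRing.ResidueField A) H
  have hb : ∀ j, ∃ x : Matrix (Fin n) (Fin n) A, x.map (IsLocalRing.residue A) = (b j : Matrix _ _ _) ∧
      ∀ g, x * r g = r g * x := fun j => hl _ (b j).2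
  choose x hx hxr using hb
  have hy : ∀ j, (x j).map A.subtype ∈ H' := by
    intro j g
    show (x j).map A.subtype * (r g).map A.subtype = (r g).map A.subtype * (x j).map A.subtype
    rw [← Matrix.map_mul, ← Matrix.map_mul, hxr]
  have hli : LinearIndependent K (fun j => (⟨(x j).map A.subtype, hy j⟩ : H')) := by
    rw [Fintype.linearIndependent_iff]
    intro a ha
    by_contra hne
    push Not at hne
    obtain ⟨j₀, c, h0, hc1, hc⟩ := scale A a hne
    have h1 : ∑ j, c j • x j = 0 := by
      ext p q
      have h2 := congrArg (fun z : H' => (z : Matrix (Fin n) (Fin n) K) p q) ha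
      simp only [Submodule.coe_sum, Submodule.coe_smul, Submodule.coe_zero, Matrix.sum_apply,
        Matrix.smul_apply, Matrix.map_apply, Matrix.zero_apply, smul_eq_mul] at h2
      have h3 : ((∑ j, c j * x j p q : A) : K) = 0 := by
        have h4 : ((∑ j, c j * x j p q : A) : K) = (a j₀)⁻¹ * ∑ j, a j * A.subtype (x j p q) := by
          rw [Finset.mul_sum]
          push_cast
          apply Finset.sum_congr rfl
          intro j _
          rw [hc j]
          show _ = (a j₀)⁻¹ * (a j * ((x j p q : A) : K))
          ring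
        rw [h4, h2, mul_zero]
      rw [Matrix.sum_apply]
      simp only [Matrix.smul_apply, smul_eq_mul, Matrix.zero_apply]
      exact h3
    have h5 : ∑ j, IsLocalRing.residue A (c j) • b j = 0 := by
      apply Subtype.ext
      rw [Submodule.coe_sum]
      simp only [Submodule.coe_smul, Submodule.coe_zero]
      ext p q
      have h6 := congrArg (IsLocalRing.residue A) (congrFun (congrFun h1 p) q)
      rw [Matrix.sum_apply] at h6
      simp only [Matrix.smul_apply, smul_eq_mul, Matrix.zero_apply, map_sum, map_mul, map_zero] at h6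
      rw [Matrix.sum_apply]
      simp only [Matrix.smul_apply, smul_eq_mul, Matrix.zero_apply]
      rw [← h6]
      apply Finset.sum_congr rfl
      intro j _
      rw [← hx j]
      rfl
    have h7 := Fintype.linearIndependent_iff.1 b.linearIndependent _ h5 j₀
    rw [hc1, map_one] at h7
    exact one_ne_zero h7
  have h8 := hli.fintype_card_le_finrank
  rw [Fintype.card_fin] at h8
  exact h8

end REC
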