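import Pool.Agent.Helper27.REC.StmtsT

/-! # Row IKR: the kernel of an integral matrix modulo large primes   [helper29] -/

set_option autoImplicit false

open scoped Classical
open NumberField Polynomial

namespace REC

namespace H29I

theorem gen_inv {V W : Type} [AddCommGroup V] [Module ℚ V] [AddCommGroup W] [Module ℚ W]
    (f : V →ₗ[ℚ] W) : ∃ g : W →ₗ[ℚ] V, ∀ v, f (g (f v)) = f v := by
  obtain ⟨g, hg⟩ := f.rangeRestrict.exists_rightInverse_of_surjective (LinearMap.range_rangeRestrict f)
  obtain ⟨g', hg'⟩ := g.exists_extend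
  refine ⟨g', fun v => ?_⟩
  have h1 : g' (f v) = g (f.rangeRestrict v) := by
    rw [← hg']
    rfl
  rw [h1]
  have h2 := congrArg (fun z => ((z (f.rangeRestrict v) : LinearMap.range f) : W)) hg
  exact h2

theorem denom {a : Type} [Fintype a] (q : a → ℚ) :
    ∃ N : ℕ, 0 < N ∧ ∀ x, ∃ z : ℤ, (N : ℚ) * q x = z := by
  refine ⟨∏ x, (q x).den, Finset.prod_pos fun x _ => (q x).den_pos, fun x => ?_⟩
  refine ⟨(∏ y ∈ Finset.univ.erase x, ((q y).den : ℤ)) * (q x).num, ?_⟩
  rw [← Finset.mul_prod_erase Finset.univ _ (Finset.mem_univ x)]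
  push_cast
  have h := Rat.den_mul_eq_num (q x)
  calc ((q x).den : ℚ) * (∏ y ∈ Finset.univ.erase x, ((q y).den : ℚ)) * q x
      = (∏ y ∈ Finset.univ.erase x, ((q y).den : ℚ)) * ((q x).den * q x) := by ring
    _ = _ := by rw [h]

theorem ne0 {K : Type} [Field K] {N l : ℕ} (hN : 0 < N) (hl : l.Prime) (h : N < l)
    (h0 : (l : K) = 0) : (N : K) ≠ 0 := by
  intro h1
  have hc : Nat.Coprime N l := by
    rw [Nat.coprime_comm]
    exact (Nat.Prime.coprime_iff_not_dvd hl).2 (Nat.not_dvd_of_pos_of_lt hN h)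
  have h2 := Nat.gcd_eq_gcd_ab N l
  rw [hc] at h2
  have h3 : ((1 : ℕ) : K) = ((N : ℤ) * Nat.gcdA N l + (l : ℤ) * Nat.gcdB N l : ℤ) := by
    rw [← h2]
    push_cast
    rfl
  push_cast at h3
  rw [h1, h0] at h3
  simp at h3

end H29I

open H29I

theorem IKR : ST_IKR := by
  intro ι κ _ _ A
  obtain ⟨g, hg⟩ := gen_inv (Matrix.toLin' (A.map (Int.castRingHom ℚ)))
  set B : Matrix ι κ ℚ := LinearMap.toMatrix' g with hB
  have hgB : g = Matrix.toLin' B := by rw [hB, Matrix.toLin'_toMatrix']
  have hABA : A.map (Int.castRingHom ℚ) * B * A.map (Int.castRingHom ℚ) =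
      A.map (Int.castRingHom ℚ) := by
    apply Matrix.toLin'.injective
    apply LinearMap.ext
    intro v
    rw [Matrix.toLin'_mul, Matrix.toLin'_mul, ← hgB]
    exact hg v
  obtain ⟨N, hN, hz⟩ := denom (fun p : ι × κ => B p.1 p.2)
  choose z hz using hz
  let B' : Matrix ι κ ℤ := Matrix.of fun i k => z (i, k)
  have hB' : B'.map (Int.castRingHom ℚ) = (N : ℚ) • B := by
    ext i k
    simp only [Matrix.map_apply, Matrix.smul_apply, smul_eq_mul]
    rw [hz (i, k)]
    rfl
  let U : Matrix ι ι ℤ := (N : ℤ) • (1 : Matrix ι ι ℤ) - B' * A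
  have hAU : A * U = 0 := by
    have h1 : (A * U).map (Int.castRingHom ℚ) = 0 := by
      have e : ∀ x : Matrix κ ι ℤ, x.map (Int.castRingHom ℚ) = x.map (Int.castRingHom ℚ) :=
        fun _ => rfl
      simp only [U, Matrix.mul_sub, Matrix.mul_smul, Matrix.mul_one]
      rw [Matrix.map_sub (Int.castRingHom ℚ) (map_sub _), ← Matrix.mul_assoc, Matrix.map_mul,
        Matrix.map_mul, hB', Matrix.mul_smul, Matrix.smul_mul, hABA]
      ext i j
      simp
    ext i j
    have h2 := congrFun (congrFun h1 i) j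
    simpa using h2
  refine ⟨N, Fintype.card ι, fun j x => U x ((Fintype.equivFin ι).symm j), ?_, ?_⟩
  · intro j
    ext k
    have h2 := congrFun (congrFun hAU k) ((Fintype.equivFin ι).symm j)
    exact h2
  · intro l K _ hl hc h0 v hv
    have hNK : (N : K) ≠ 0 := ne0 hN hl hc h0
    have hU : (U.map (Int.castRingHom K)).mulVec v = (N : K) • v := by
      have h1 : U.map (Int.castRingHom K) = (N : K) • (1 : Matrix ι ι K) -
          B'.map (Int.castRingHom K) * A.map (Int.castRingHom K) := by
        rw [← Matrix.map_mul]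
        ext i j
        simp only [U, Matrix.map_apply, Matrix.sub_apply, Matrix.smul_apply, Matrix.one_apply,
          smul_eq_mul, map_sub]
        by_cases hij : i = j <;> simp [hij]
      rw [h1, Matrix.sub_mulVec, ← Matrix.mulVec_mulVec, hv, Matrix.mulVec_zero, sub_zero,
        Matrix.smul_mulVec, Matrix.one_mulVec]
    have hv2 : v = ∑ j : Fin (Fintype.card ι), ((N : K)⁻¹ * v ((Fintype.equivFin ι).symm j)) •
        (fun x => ((U x ((Fintype.equivFin ι).symm j) : ℤ) : K)) := by
      have h3 : v = (N : K)⁻¹ • (U.map (Int.castRingHom K)).mulVec v := by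
        rw [hU, smul_smul, inv_mul_cancel₀ hNK, one_smul]
      conv_lhs => rw [h3]
      funext x
      simp only [Pi.smul_apply, Finset.sum_apply, smul_eq_mul, Matrix.mulVec, dotProduct,
        Matrix.map_apply, Finset.mul_sum]
      rw [← (Fintype.equivFin ι).symm.sum_comp]
      apply Finset.sum_congr rfl
      intro j _
      simp only [eq_intCast]
      ring
    rw [hv2]
    apply Submodule.sum_mem
    intro j _
    apply Submodule.smul_mem
    apply Submodule.subset_span
    exact ⟨j, rfl⟩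

end REC
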