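import Pool.Agent.Helper27.REC.StmtsT

/-! # Row TWH: twisted homomorphisms and stable subspaces   [helper29] -/

set_option autoImplicit false

open scoped Classical
open NumberField Polynomial

namespace REC

namespace H29T

section

variable {K : Type} [Field K] {t : ℕ} {m : Fin t → ℕ}

theorem inG_of_inS {J X : MM m K} (h : InS J X) : InG J X := by
  intro i
  refine ⟨0, ?_⟩
  rw [zero_smul]
  exact (h i).2

theorem tmy_inv (hTMB : ST_TMB) {G : Type} [Group G] (R : ∀ i, G →* Matrix (Fin (m i)) (Fin (m i)) K)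
    (c c' : Fin t → ℕ) (g : G) :
    tmy c c' (fun i => R i g) (fun i => R i g⁻¹) * tmy c c' (fun i => R i g⁻¹) (fun i => R i g) =
      1 := by
  have h := hTMB K t m c c'
  rw [← h.1 (fun i => R i g) (fun i => R i g⁻¹) (fun i => R i g⁻¹) (fun i => R i g), ← h.2.1]
  congr 1
  · funext i
    rw [← map_mul, mul_inv_cancel, map_one]
  · funext i
    rw [← map_mul, mul_inv_cancel, map_one]

theorem dtm_add (hTMB : ST_TMB) (c c' : Fin t → ℕ) (X Y : MM m K) :
    dtm c c' (X + Y) = dtm c c' X + dtm c c' Y :=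
  (hTMB K t m c c').2.2.2.2.2.2.1 X Y

theorem dtm_smul (hTMB : ST_TMB) (c c' : Fin t → ℕ) (r : K) (X : MM m K) :
    dtm c c' (r • X) = r • dtm c c' X :=
  (hTMB K t m c c').2.2.2.2.2.2.2.1 r X

theorem dtm_brk (hTMB : ST_TMB) (c c' : Fin t → ℕ) (X Y : MM m K) :
    dtm c c' (fun i => X i * Y i - Y i * X i) =
      dtm c c' X * dtm c c' Y - dtm c c' Y * dtm c c' X :=
  (hTMB K t m c c').2.2.2.2.2.2.2.2.1 X Y

/-- the families which commute with `u`, as a subspace -/
def com (hTMB : ST_TMB) {c₁ c₁' c₂ c₂' : Fin t → ℕ}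
    (u : Matrix (Tix m c₂ c₂') (Tix m c₁ c₁') K) : Submodule K (MM m K) where
  carrier := {X | dtm c₂ c₂' X * u = u * dtm c₁ c₁' X}
  add_mem' := by
    intro X Y hX hY
    simp only [Set.mem_setOf_eq] at hX hY ⊢
    rw [dtm_add hTMB, dtm_add hTMB, Matrix.add_mul, Matrix.mul_add, hX, hY]
  zero_mem' := by
    have h : ∀ c c' : Fin t → ℕ, dtm c c' (0 : MM m K) = 0 := by
      intro c c'
      have := dtm_smul hTMB c c' (0 : K) (0 : MM m K)
      rwa [zero_smul, zero_smul] at this
    simp only [Set.mem_setOf_eq]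
    rw [h, h, Matrix.zero_mul, Matrix.mul_zero]
  smul_mem' := by
    intro r X hX
    simp only [Set.mem_setOf_eq] at hX ⊢
    rw [dtm_smul hTMB, dtm_smul hTMB, Matrix.smul_mul, Matrix.mul_smul, hX]

theorem brk {a b : Type} [Fintype a] [Fintype b] [DecidableEq a] [DecidableEq b]
    (A A' : Matrix b b K) (B B' : Matrix a a K) (u : Matrix b a K) (l l' : K)
    (h : A * u - u * B = l • u) (h' : A' * u - u * B' = l' • u) :
    (A * A' - A' * A) * u = u * (B * B' - B' * B) := by
  have e : A * u = u * B + l • u := by rw [← h]; abel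
  have e' : A' * u = u * B' + l' • u := by rw [← h']; abel
  rw [Matrix.sub_mul, Matrix.mul_sub, Matrix.mul_assoc, Matrix.mul_assoc, e, e', Matrix.mul_add,
    Matrix.mul_add, ← Matrix.mul_assoc, ← Matrix.mul_assoc, Matrix.mul_smul, Matrix.mul_smul, e, e',
    Matrix.add_mul, Matrix.add_mul, Matrix.smul_mul, Matrix.smul_mul, smul_add, smul_add,
    ← Matrix.mul_assoc, ← Matrix.mul_assoc, smul_comm l l' u]
  abel

instance (c c' : Fin t → ℕ) : Finite (Tix m c c') := inferInstance

theorem sub0 (p p' : Tix m (0 : Fin t → ℕ) (0 : Fin t → ℕ)) : p = p' := by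
  funext i
  apply Prod.ext
  · funext j; exact Fin.elim0 j
  · funext j; exact Fin.elim0 j

theorem tmy0 {R : Type} [CommRing R] (x y : MM m R) (p p' : Tix m (0 : Fin t → ℕ) (0 : Fin t → ℕ)) :
    tmy 0 0 x y p p' = 1 := by
  unfold tmy
  simp only [Matrix.of_apply]
  apply Finset.prod_eq_one
  intro i _
  have h1 : ∏ j : Fin ((0 : Fin t → ℕ) i), x i ((p i).1 j) ((p' i).1 j) = 1 :=
    Finset.prod_eq_one fun j _ => Fin.elim0 j
  have h2 : ∏ j : Fin ((0 : Fin t → ℕ) i), y i ((p' i).2 j) ((p i).2 j) = 1 :=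
    Finset.prod_eq_one fun j _ => Fin.elim0 j
  rw [h1, h2, one_mul]

theorem dtm0 (X : MM m K) : dtm (0 : Fin t → ℕ) 0 X = 0 := by
  ext p p'
  unfold dtm
  simp only [Matrix.of_apply, Matrix.zero_apply]
  rw [tmy0]
  simp [Polynomial.coeff_one]

end

end H29T

open H29T

theorem TWH (hTMB : ST_TMB) : ST_TWH := by
  intro G K _ _ t m J R c₁ c₁' c₂ c₂'
  constructor
  · intro hD ψ u hu
    have key : ∀ g, u = ψ g • (tmy c₂ c₂' (fun i => R i g) (fun i => R i g⁻¹) * u *
        tmy c₁ c₁' (fun i => R i g⁻¹) (fun i => R i g)) := by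
      intro g
      have h1 := congrArg (fun z => z * tmy c₁ c₁' (fun i => R i g⁻¹) (fun i => R i g)) (hu g)
      rw [Matrix.mul_assoc, tmy_inv hTMB R c₁ c₁' g, Matrix.mul_one, Matrix.smul_mul] at h1
      exact h1
    have hW := hD.1 (Submodule.span K {u}) (by
      intro g v hv
      rw [Submodule.mem_span_singleton] at hv ⊢
      obtain ⟨a, rfl⟩ := hv
      by_cases h0 : ψ g = 0
      · have hz : u = 0 := by
          rw [key g, h0, zero_smul]
        refine ⟨0, ?_⟩
        rw [hz]
        simp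
      · refine ⟨a * (ψ g)⁻¹, ?_⟩
        have h2 : (ψ g)⁻¹ • u = tmy c₂ c₂' (fun i => R i g) (fun i => R i g⁻¹) * u *
            tmy c₁ c₁' (fun i => R i g⁻¹) (fun i => R i g) := by
          conv_lhs => rw [key g]
          rw [smul_smul, inv_mul_cancel₀ h0, one_smul]
        rw [mul_smul, h2, Matrix.mul_smul, Matrix.smul_mul])
    intro X hX
    have hle : Submodule.span K {Z : MM m K | ∃ Y Y' : MM m K, InG J Y ∧
        InG J Y' ∧ Z = fun i => Y i * Y' i - Y' i * Y i} ≤ com hTMB u := by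
      rw [Submodule.span_le]
      rintro Z ⟨Y, Y', hY, hY', rfl⟩
      have e1 := hW Y hY u (Submodule.mem_span_singleton_self u)
      have e2 := hW Y' hY' u (Submodule.mem_span_singleton_self u)
      rw [Submodule.mem_span_singleton] at e1 e2
      obtain ⟨a, ha⟩ := e1
      obtain ⟨b, hb⟩ := e2
      show dtm c₂ c₂' _ * u = u * dtm c₁ c₁' _
      rw [dtm_brk hTMB, dtm_brk hTMB]
      exact brk _ _ _ _ u a b ha.symm hb.symm
    exact hle (hD.2 X hX)
  · intro hD W hW X hX x hx
    let W' : Submodule K (Matrix (Tix m c₂ c₂') (Tix m (0 : Fin t → ℕ) (0 : Fin t → ℕ)) K) :=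
      { carrier := {u | ∀ p0, (fun p => u p p0) ∈ W}
        add_mem' := by
          intro u v hu hv p0
          exact W.add_mem (hu p0) (hv p0)
        zero_mem' := by
          intro p0
          exact W.zero_mem
        smul_mem' := by
          intro a u hu p0
          exact W.smul_mem a (hu p0) }
    have h := hD.1 W' (by
      intro g u hu p0
      have h1 : tmy (0 : Fin t → ℕ) 0 (fun i => R i g⁻¹) (fun i => R i g) = 1 := by
        ext p p'
        rw [tmy0, sub0 p p', Matrix.one_apply_eq]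
      rw [h1, Matrix.mul_one]
      have h2 : (fun p => (tmy c₂ c₂' (fun i => R i g) (fun i => R i g⁻¹) * u) p p0) =
          (tmy c₂ c₂' (fun i => R i g) (fun i => R i g⁻¹)).mulVec (fun p => u p p0) := by
        funext p
        rfl
      rw [h2]
      exact hW g _ (hu p0)) X (inG_of_inS hX) (Matrix.of fun p _ => x p) (by
      intro p0
      exact hx)
    rw [dtm0, Matrix.mul_zero, sub_zero] at h
    have h3 := h (fun i => (fun j => Fin.elim0 j, fun j => Fin.elim0 j))
    exact h3

end REC
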